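import Mathlib
import Pool.Agent.R33.RingMain

/-!
# Approximate covering of the ring is solvable in SSYNC without common orientation

The model (`Algorithm`, `view`, `displacement`, `gap`, `Run`, `Covers`) is in
`Pool/Agent/R33/RingDefs.lean`.

There is one algorithm which, on every ring, for every number `n ≥ 2` of sensors and every
visibility range `V > d = L / n` (in particular for `V ≥ 2 d`), makes every SSYNC run converge to
the exact covering, so that an `ε`-approximate covering is reached (and kept) for every `ε > 0`.
The algorithm does not know `n`, `L`, `d`, `ε` or an orientation.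

The algorithm moves a quarter of the difference between the two neighbouring gaps, both truncated
at the visibility range, towards the larger one.  The sum of the squares of the gaps decreases,
and at a limit point the smallest gap must be equal to all the other ones.
-/

namespace Pool.Agent.Results.MP_5c423c_lc.RingSsyncSolvable

open RingCover

theorem result : ∃ A : Algorithm, ∀ (n : ℕ) [NeZero n], 2 ≤ n → ∀ L V : ℝ, 0 < L → L / n < V →
    ∀ (R : Run A n L V) (ε : ℝ), 0 < ε → ∃ T, ∀ t, T ≤ t → Covers L ε (R.pos t) := by
  refine ⟨avg, ?_⟩
  intro n hn0 hn L V hL hV R ε hε
  obtain ⟨m, rfl⟩ : ∃ m, n = m + 1 := ⟨n - 1, by omega⟩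
  exact avg_covers hL hV R hε

end Pool.Agent.Results.MP_5c423c_lc.RingSsyncSolvable
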